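import Pool.Agent.L7h35.PC5.Stm

set_option autoImplicit false

namespace Pool.Agent.L7h61.PC5

open Pool.Agent.L7h35.PC5

theorem s_UPB (hB : S_BIP) (hK : S_K4) : S_UPB := by
  intro n hn
  classical
  have h1 : 1 < Nat.clog 2 n := by
    rw [Nat.lt_clog_iff_pow_lt (by norm_num)]
    omega
  have hpow : n ≤ 2 ^ Nat.clog 2 n := Nat.le_pow_clog (by norm_num) n
  have hlast : ∀ e : Edge n, ∀ u ∈ e.1, ∀ v ∈ e.1,
      u.val / 2 ^ (Nat.clog 2 n - 1 + 1) = v.val / 2 ^ (Nat.clog 2 n - 1 + 1) := by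
    intro e u _ v _
    have h2 : Nat.clog 2 n - 1 + 1 = Nat.clog 2 n := by omega
    rw [h2, Nat.div_eq_of_lt (lt_of_lt_of_le u.isLt hpow),
      Nat.div_eq_of_lt (lt_of_lt_of_le v.isLt hpow)]
  have hex : ∀ e : Edge n, ∃ j : ℕ, ∀ u ∈ e.1, ∀ v ∈ e.1,
      u.val / 2 ^ (j + 1) = v.val / 2 ^ (j + 1) := fun e => ⟨_, hlast e⟩
  have hle : ∀ e, Nat.find (hex e) ≤ Nat.clog 2 n - 1 := fun e => Nat.find_min' (hex e) (hlast e)
  refine ⟨fun e => ⟨Nat.find (hex e) - 1, by have := hle e; omega⟩, fun i T hT => ?_⟩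
  have hcol : ∀ e ∈ T, Nat.find (hex e) - 1 = i.val := by
    intro e he
    have h3 : (⟨Nat.find (hex e) - 1, _⟩ : Fin (Nat.clog 2 n - 1)) = i := hT he
    exact congrArg Fin.val h3
  by_cases hi : i.val = 0
  · apply hK n T
    intro e he u hu v hv
    have h3 := hcol e he
    have h4 := Nat.find_spec (hex e) u hu v hv
    have h5 : Nat.find (hex e) = 0 ∨ Nat.find (hex e) = 1 := by omega
    rcases h5 with h5 | h5
    · rw [h5] at h4
      norm_num at h4
      omega
    · rw [h5] at h4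
      norm_num at h4
      exact h4
  · apply hB n (fun u => decide ((u.val / 2 ^ (i.val + 1)) % 2 = 1)) T
    intro e he
    have h3 := hcol e he
    have h5 : Nat.find (hex e) = i.val + 1 := by omega
    have h6 := Nat.find_min (hex e) (m := i.val) (by omega)
    push Not at h6
    obtain ⟨u, hu, v, hv, huv⟩ := h6
    have h4 := Nat.find_spec (hex e) u hu v hv
    rw [h5] at h4
    have huv' : u ≠ v := by rintro rfl; exact huv rfl
    have he2 : e.1 = {u, v} := by
      symm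
      apply Finset.eq_of_subset_of_card_le
      · intro w hw
        rw [Finset.mem_insert, Finset.mem_singleton] at hw
        rcases hw with rfl | rfl
        · exact hu
        · exact hv
      · rw [e.2, Finset.card_pair huv']
    have h7 : (u.val / 2 ^ (i.val + 1)) / 2 = (v.val / 2 ^ (i.val + 1)) / 2 := by
      rw [Nat.div_div_eq_div_mul, Nat.div_div_eq_div_mul, ← pow_succ]
      exact h4
    have h8 : ((u.val / 2 ^ (i.val + 1)) % 2 = 1 ∧ ¬ (v.val / 2 ^ (i.val + 1)) % 2 = 1) ∨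
        ((v.val / 2 ^ (i.val + 1)) % 2 = 1 ∧ ¬ (u.val / 2 ^ (i.val + 1)) % 2 = 1) := by
      omega
    rcases h8 with ⟨h8, h9⟩ | ⟨h8, h9⟩
    · exact ⟨u, v, he2, decide_eq_true h8, decide_eq_false h9⟩
    · exact ⟨v, u, by rw [he2, Finset.pair_comm], decide_eq_true h8, decide_eq_false h9⟩

end Pool.Agent.L7h61.PC5
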